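import Pool.Agent.Q145.CP.Main

/-!
# The cop number is sublinear in the length of a longest path

For every integer `e ≥ 1` the cop number of a finite connected graph whose longest path has `p`
vertices is at most `p / e + (4 e) ^ (e + 1) + 7`.  Hence no `ε > 0` has the property asked for in
the problem.
-/

set_option autoImplicit false

namespace Pool.Agent.Results.MP_8941bc_co.SublinearInPath

open Pool.Agent.Q145.CP SimpleGraph

universe u

/-- A move of a player: staying put or moving to an adjacent vertex. -/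
def Move {V : Type u} (G : SimpleGraph V) (x y : V) : Prop := x = y ∨ G.Adj x y

/-- `k` cops win on `G`: there are a placement `c₀` of the cops and a (positional) strategy `σ`
such that, whatever the robber's positions `r 0, r 1, ...` are, the cops, whose positions are
`c 0 = c₀` and `c (n + 1) = σ (c n) (r n)`, reach the robber after finitely many moves
(the cops move first: `c (n + 1)` is played against the robber's position `r n`). -/
def CopsWin {V : Type u} (G : SimpleGraph V) (k : ℕ) : Prop :=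
  ∃ (c₀ : Fin k → V) (σ : (Fin k → V) → V → (Fin k → V)),
    (∀ c r i, Move G (c i) (σ c r i)) ∧
    ∀ r : ℕ → V, (∀ n, Move G (r n) (r (n + 1))) →
      ∀ c : ℕ → (Fin k → V), c 0 = c₀ → (∀ n, c (n + 1) = σ (c n) (r n)) →
        ∃ n i, c n i = r n ∨ c (n + 1) i = r n

/-- The cop number: the least number of cops that win. -/
noncomputable def copNumber {V : Type u} (G : SimpleGraph V) : ℕ := sInf {k | CopsWin G k}

/-- The longest path of `G` has length `p`: some path has `p` vertices and no path has more. -/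
def LongestPath {V : Type u} (G : SimpleGraph V) (p : ℕ) : Prop :=
  (∃ (a b : V) (w : G.Walk a b), w.IsPath ∧ w.support.length = p) ∧
    ∀ (a b : V) (w : G.Walk a b), w.IsPath → w.support.length ≤ p

section strategy

variable {V : Type u} {G : SimpleGraph V} {k : ℕ}

/-- the cops, at `c` and to move, can win within `n` moves -/
def W (G : SimpleGraph V) (k : ℕ) : ℕ → (Fin k → V) → V → Prop
  | 0, c, r => ∃ i, c i = r
  | n + 1, c, r => ∃ c' : Fin k → V, (∀ i, Move G (c i) (c' i)) ∧
      ((∃ i, c' i = r) ∨ ∀ r', Move G r r' → W G k n c' r')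

theorem W_succ : ∀ (n : ℕ) (c : Fin k → V) (r : V), W G k n c r → W G k (n + 1) c r := by
  intro n
  induction n with
  | zero =>
    intro c r h
    exact ⟨c, fun i => Or.inl rfl, Or.inl h⟩
  | succ n ih =>
    rintro c r ⟨c', h1, h2⟩
    refine ⟨c', h1, ?_⟩
    rcases h2 with h2 | h2
    · exact Or.inl h2
    · exact Or.inr (fun r' hr' => ih c' r' (h2 r' hr'))

theorem W_mono {n m : ℕ} (h : n ≤ m) (c : Fin k → V) (r : V) (hW : W G k n c r) :
    W G k m c r := by
  induction h with
  | refl => exact hW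
  | step _ ih => exact W_succ _ _ _ ih

theorem W_of_win [Finite V] {P : Fin k → V} {x : V} (h : Win G P x) :
    ∀ c : Fin k → V, (∀ i, Move G (c i) (P i)) → ∃ n, W G k n c x := by
  induction h with
  | @capt P x i h =>
    intro c hc
    exact ⟨1, P, hc, Or.inl ⟨i, h⟩⟩
  | @step P x R h1 h2 ih =>
    intro c hc
    classical
    have key : ∀ x', ∃ n, Move G x x' → W G k n P x' := by
      intro x'
      by_cases hx' : Move G x x'
      · obtain ⟨n, hn⟩ := ih x' hx' P (fun i => h1 x' hx' i)
        exact ⟨n, fun _ => hn⟩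
      · exact ⟨0, fun h => absurd h hx'⟩
    choose N hN using key
    have := Fintype.ofFinite V
    refine ⟨Finset.univ.sup N + 1, P, hc, Or.inr ?_⟩
    intro r' hr'
    exact W_mono (Finset.le_sup (Finset.mem_univ r')) P r' (hN r' hr')

theorem copsWin_of_W (c₀ : Fin k → V) (h : ∀ x, ∃ n, W G k n c₀ x) : CopsWin G k := by
  classical
  -- the strategy
  have key : ∀ (c : Fin k → V) (r : V), ∃ c' : Fin k → V, (∀ i, Move G (c i) (c' i)) ∧
      ∀ n, W G k n c r → (∀ m, m < n → ¬ W G k m c r) → (∃ i, c i = r) ∨ (∃ i, c' i = r) ∨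
        ∃ m, m < n ∧ ∀ r', Move G r r' → W G k m c' r' := by
    intro c r
    by_cases hex : ∃ n, W G k n c r
    · have h1 := Nat.find_spec hex
      rcases hn : Nat.find hex with _ | m
      · rw [hn] at h1
        exact ⟨c, fun i => Or.inl rfl, fun n _ _ => Or.inl h1⟩
      · rw [hn] at h1
        obtain ⟨c', h2, h3⟩ := h1
        refine ⟨c', h2, ?_⟩
        intro n hn1 hn2
        have hnm : n = m + 1 := by
          have e1 : Nat.find hex ≤ n := Nat.find_min' hex hn1
          by_contra hne
          have e2 : m + 1 < n := by omega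
          exact hn2 (m + 1) e2 (hn ▸ Nat.find_spec hex)
        rcases h3 with h3 | h3
        · exact Or.inr (Or.inl h3)
        · exact Or.inr (Or.inr ⟨m, by omega, h3⟩)
    · exact ⟨c, fun i => Or.inl rfl, fun n hn => absurd ⟨n, hn⟩ hex⟩
  choose σ hσ1 hσ2 using key
  refine ⟨c₀, σ, hσ1, ?_⟩
  intro r hr c hc0 hc
  have main : ∀ n t, W G k n (c t) (r t) → ∃ n i, c n i = r n ∨ c (n + 1) i = r n := by
    intro n
    induction n using Nat.strong_induction_on with
    | _ n ih =>
      intro t hW
      by_cases hmin : ∃ m, m < n ∧ W G k m (c t) (r t)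
      · obtain ⟨m, hm, hW'⟩ := hmin
        exact ih m hm t hW'
      · push Not at hmin
        rcases hσ2 (c t) (r t) n hW hmin with ⟨i, hi⟩ | ⟨i, hi⟩ | ⟨m, hm, h3⟩
        · exact ⟨t, i, Or.inl hi⟩
        · exact ⟨t, i, Or.inr (by rw [hc t]; exact hi)⟩
        · refine ih m hm (t + 1) ?_
          rw [hc t]
          exact h3 _ (hr t)
  obtain ⟨n, hn⟩ := h (r 0)
  exact main n 0 (by rw [hc0]; exact hn)

end strategy

theorem copsWin_bound {V : Type u} [Finite V] {G : SimpleGraph V} {p : ℕ} (hG : G.Connected)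
    (hp : LongestPath G p) {e : ℕ} (he : 1 ≤ e) : CopsWin G (p / e + (4 * e) ^ (e + 1) + 7) := by
  classical
  set M := 2 * e * DD (2 * e) e + 1 with hM
  have hMv : (4 * e) ^ (e + 1) + 1 = M := by
    rw [hM]
    unfold DD
    have : 2 * (2 * e) = 4 * e := by ring
    rw [this, pow_succ]
    ring
  set k := p / e + (4 * e) ^ (e + 1) + 7 with hk
  have hk2 : k = p / e + (M + 6) := by omega
  have hcard : p + e + e * (M + 4) ≤ e * Fintype.card (Fin k) := by
    rw [Fintype.card_fin, hk2]
    have h1 : p ≤ e * (p / e) + e := by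
      have := Nat.div_add_mod p e
      have h2 := Nat.mod_lt p (show 0 < e by omega)
      omega
    have h3 : e * (p / e + (M + 6)) = e * (p / e) + e * (M + 4) + e + e := by ring
    omega
  have hp' : ∀ (a b : V) (w : G.Walk a b), w.IsPath → w.length + 1 ≤ p := by
    intro a b w hw
    have := hp.2 a b w hw
    rwa [Walk.length_support] at this
  obtain ⟨z⟩ := hG.nonempty
  have hkpos : 0 < k := lt_of_lt_of_le (by norm_num : 0 < 7) (Nat.le_add_left 7 _)
  let i0 : Fin k := ⟨0, hkpos⟩
  refine copsWin_of_W (fun _ => z) ?_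
  intro x
  by_cases hxz : x = z
  · exact ⟨0, i0, hxz.symm⟩
  · have hxR : x ∈ (Set.univ \ {z} : Set V) := ⟨trivial, by simpa using hxz⟩
    set T := comp G (Set.univ \ {z}) x with hT
    have hsub : T ⊆ Set.univ \ {z} := comp_sub hxR
    have hst : State G e z T (∅ : Finset (Fin k)) i0 (fun _ => z) x := by
      refine ⟨⟨fun _ y => y ∈ T, ⟨fun _ _ h => h, fun _ _ _ h _ => h, ?_⟩, mem_comp_self⟩,
        comp_conn, fun h => (hsub h).2 rfl, ?_, ⟨z, Walk.nil, Walk.IsPath.nil, ?_, ?_⟩,
        by simp, rfl⟩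
      · intro P y hy y' hyy hy'
        refine ⟨P, by simp, Or.inl ?_⟩
        have : y' ∈ T := by
          rcases hyy with h | h
          · exact h ▸ hy
          · exact comp_closed hxR hy h ⟨trivial, hy'⟩
        exact ⟨this, this⟩
      · have hle : G ≤ res G Set.univ := fun a b hab => ⟨hab, trivial, trivial⟩
        obtain ⟨q⟩ := (hG.preconnected x z).mono hle
        obtain ⟨v1, h1, h2⟩ := exit_adj q hxz
        exact ⟨v1, h1, h2.symm⟩
      · intro v hv
        simp only [Walk.support_nil, List.mem_singleton] at hv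
        rw [hv]; exact fun h => (hsub h).2 rfl
      · simp
    have hwin := state_win hG he (le_of_eq hM.symm) hp' hcard _ z T ∅ i0 (fun _ => z) x rfl hst
    exact W_of_win hwin (fun _ => z) (fun _ => Or.inl rfl)

/-- **Main theorem.** (1) For every `e ≥ 1` the cop number of a finite connected graph whose
longest path has `p` vertices is at most `p / e + (4 e) ^ (e + 1) + 7`.
(2) Hence for every `ε > 0` and all large `p` it is smaller than `ε p`.
(3) In particular there is no `ε > 0` such that for every `p ≥ 1` some connected graph whose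
longest path has `p` vertices has cop number at least `ε p`. -/
theorem result :
    (∀ (V : Type u) [Finite V] (G : SimpleGraph V) (p : ℕ), G.Connected → LongestPath G p →
      ∀ e : ℕ, 1 ≤ e → copNumber G ≤ p / e + (4 * e) ^ (e + 1) + 7) ∧
    (∀ ε : ℝ, 0 < ε → ∃ p₀ : ℕ, ∀ p : ℕ, p₀ ≤ p → ∀ (V : Type u) [Finite V] (G : SimpleGraph V),
      G.Connected → LongestPath G p → (copNumber G : ℝ) < ε * p) ∧
    ¬ ∃ ε : ℝ, 0 < ε ∧ ∀ p : ℕ, 1 ≤ p → ∃ (V : Type u) (_ : Finite V) (G : SimpleGraph V),
      G.Connected ∧ LongestPath G p ∧ ε * p ≤ (copNumber G : ℝ) := by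
  have h1 : ∀ (V : Type u) [Finite V] (G : SimpleGraph V) (p : ℕ), G.Connected →
      LongestPath G p → ∀ e : ℕ, 1 ≤ e → copNumber G ≤ p / e + (4 * e) ^ (e + 1) + 7 := by
    intro V _ G p hG hp e he
    exact Nat.sInf_le (copsWin_bound hG hp he)
  have h2 : ∀ ε : ℝ, 0 < ε → ∃ p₀ : ℕ, ∀ p : ℕ, p₀ ≤ p → ∀ (V : Type u) [Finite V]
      (G : SimpleGraph V), G.Connected → LongestPath G p → (copNumber G : ℝ) < ε * p := by
    intro ε hε
    obtain ⟨e, he⟩ := exists_nat_gt (2 / ε)
    have he0 : (0 : ℝ) < e := lt_trans (by positivity) he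
    have he1 : 1 ≤ e := by
      have : (0 : ℝ) < e := he0
      exact_mod_cast this
    obtain ⟨p₀, hp₀⟩ := exists_nat_gt (2 * ((((4 * e) ^ (e + 1) + 7 : ℕ)) : ℝ) / ε)
    refine ⟨p₀, fun p hp V _ G hG hlp => ?_⟩
    have h3 := h1 V G p hG hlp e he1
    have h4 : (copNumber G : ℝ) ≤ ((p / e : ℕ) : ℝ) + (((4 * e) ^ (e + 1) + 7 : ℕ) : ℝ) := by
      rw [← Nat.cast_add]
      exact_mod_cast (by omega : copNumber G ≤ p / e + ((4 * e) ^ (e + 1) + 7))
    have h5 : ((p / e : ℕ) : ℝ) ≤ (p : ℝ) / e := Nat.cast_div_le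
    have h6 : (p : ℝ) / e ≤ ε / 2 * p := by
      rw [div_le_iff₀ he0]
      have h7 : 2 < ε * e := by
        rw [div_lt_iff₀ hε] at he
        linarith [mul_comm (e : ℝ) ε]
      have h8 : (0 : ℝ) ≤ p := Nat.cast_nonneg p
      nlinarith
    have h9 : (((4 * e) ^ (e + 1) + 7 : ℕ) : ℝ) < ε / 2 * p := by
      have h10 : 2 * ((((4 * e) ^ (e + 1) + 7 : ℕ)) : ℝ) / ε < p :=
        lt_of_lt_of_le hp₀ (by exact_mod_cast hp)
      rw [div_lt_iff₀ hε] at h10
      nlinarith
    linarith
  refine ⟨h1, h2, ?_⟩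
  rintro ⟨ε, hε, h⟩
  obtain ⟨p₀, hp₀⟩ := h2 ε hε
  obtain ⟨V, hV, G, hG, hlp, hle⟩ := h (max p₀ 1) (le_max_right _ _)
  have := hV
  have := hp₀ (max p₀ 1) (le_max_left _ _) V G hG hlp
  linarith

end Pool.Agent.Results.MP_8941bc_co.SublinearInPath
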